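import Mathlib

set_option autoImplicit false

/-!
# A spectrally arbitrary sign pattern with a superpattern that is not spectrally arbitrary

`S = M₄ ⊕ T₂` is spectrally arbitrary.  The superpattern `S' = M₄' ⊕ T₂`, obtained by turning
the entry `(1, 4)` into `+`, does not realize `X ^ 6`, since `M₄'` is not potentially nilpotent.
-/

namespace Pool.Agent.Results.MP_557f7f_co.SpectralSuperpattern

open Polynomial Matrix

/-- `A` is a realization of the sign pattern `S`. -/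
def Realizes {n : ℕ} (A : Matrix (Fin n) (Fin n) ℝ) (S : Matrix (Fin n) (Fin n) SignType) : Prop :=
  ∀ i j, SignType.sign (A i j) = S i j

/-- The sign pattern `S` is spectrally arbitrary: every monic real polynomial of degree `n` is the
characteristic polynomial of a realization of `S`. -/
def SpectrallyArbitrary {n : ℕ} (S : Matrix (Fin n) (Fin n) SignType) : Prop :=
  ∀ p : ℝ[X], p.Monic → p.natDegree = n →
    ∃ A : Matrix (Fin n) (Fin n) ℝ, Realizes A S ∧ A.charpoly = p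

/-- `S'` is a superpattern of `S`: it agrees with `S` at every nonzero entry of `S`. -/
def IsSuperpattern {n : ℕ} (S' S : Matrix (Fin n) (Fin n) SignType) : Prop :=
  ∀ i j, S i j ≠ 0 → S' i j = S i j

/-- The pattern `M₄ ⊕ T₂`. -/
def S : Matrix (Fin 6) (Fin 6) SignType :=
  !![1, 1, -1, 0, 0, 0;
     -1, -1, 1, 0, 0, 0;
     0, 0, 0, -1, 0, 0;
     1, 1, 0, 0, 0, 0;
     0, 0, 0, 0, 1, 1;
     0, 0, 0, 0, -1, -1]

/-- The superpattern, with one more `+` in the first row. -/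
def S' : Matrix (Fin 6) (Fin 6) SignType :=
  !![1, 1, -1, 1, 0, 0;
     -1, -1, 1, 0, 0, 0;
     0, 0, 0, -1, 0, 0;
     1, 1, 0, 0, 0, 0;
     0, 0, 0, 0, 1, 1;
     0, 0, 0, 0, -1, -1]

/-- The pattern `M₄`. -/
def M4 : Matrix (Fin 4) (Fin 4) SignType :=
  !![1, 1, -1, 0; -1, -1, 1, 0; 0, 0, 0, -1; 1, 1, 0, 0]

/-- The pattern `T₂`. -/
def T2 : Matrix (Fin 2) (Fin 2) SignType := !![1, 1; -1, -1]

theorem charpoly4 (a b c p d e f g h k : ℝ) :
    (!![a, b, c, p; d, e, f, 0; 0, 0, 0, g; h, k, 0, 0] : Matrix (Fin 4) (Fin 4) ℝ).charpoly =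
      X ^ 4 + C (-(a + e)) * X ^ 3 + C (a * e - b * d - p * h) * X ^ 2 +
        C (-(c * g * h + f * g * k) + p * (e * h - d * k)) * X +
        C (g * (a * f * k - b * f * h + c * (e * h - d * k))) := by
  have h1 : charmatrix (!![a, b, c, p; d, e, f, 0; 0, 0, 0, g; h, k, 0, 0] :
      Matrix (Fin 4) (Fin 4) ℝ) =
      !![X - C a, -C b, -C c, -C p; -C d, X - C e, -C f, 0; 0, 0, X, -C g; -C h, -C k, 0, X] := by
    ext i j : 2
    fin_cases i <;> fin_cases j <;> simp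
  rw [Matrix.charpoly, h1]
  simp [Matrix.det_succ_row_zero, Fin.sum_univ_succ, Fin.succAbove]
  ring

theorem charpoly2 (a b c d : ℝ) :
    (!![a, b; c, d] : Matrix (Fin 2) (Fin 2) ℝ).charpoly =
      X ^ 2 + C (-(a + d)) * X + C (a * d - b * c) := by
  have h1 : charmatrix (!![a, b; c, d] : Matrix (Fin 2) (Fin 2) ℝ) =
      !![X - C a, -C b; -C c, X - C d] := by
    ext i j : 2
    fin_cases i <;> fin_cases j <;> simp
  rw [Matrix.charpoly, h1, Matrix.det_fin_two_of]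
  simp
  ring

theorem realize_T2 (s t : ℝ) :
    ∃ A : Matrix (Fin 2) (Fin 2) ℝ, Realizes A T2 ∧ A.charpoly = X ^ 2 + C s * X + C t := by
  set a : ℝ := |s| + |t| + 1 with ha
  have n1 := abs_nonneg s
  have n2 := abs_nonneg t
  have l1 := neg_abs_le s
  have l2 := neg_abs_le t
  have ha1 : 1 ≤ a := by rw [ha]; linarith
  have hd : |t| + 1 ≤ a + s := by rw [ha]; linarith
  have hc : 0 < t + a * (a + s) := by nlinarith
  have ha0 : 0 < a := by linarith
  have hd0 : 0 < a + s := by linarith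
  refine ⟨!![a, 1; -(t + a * (a + s)), -(a + s)], ?_, ?_⟩
  · intro i j
    fin_cases i <;> fin_cases j
    · exact sign_pos ha0
    · exact sign_pos one_pos
    · exact sign_neg (neg_neg_of_pos hc)
    · exact sign_neg (neg_neg_of_pos hd0)
  · rw [charpoly2]
    have h1 : -(a + -(a + s)) = s := by ring
    have h2 : a * -(a + s) - 1 * -(t + a * (a + s)) = t := by ring
    rw [h1, h2]

/-- The realization of `M₄` from a solution of the reduced system. -/
theorem realize_M4_aux (b3 b2 b1 b0 a S T P Q : ℝ) (ha : 0 < a) (he : 0 < a + b3) (hS : 0 < S)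
    (hT : 0 < T) (hP : 0 < P) (hQ : 0 < Q) (h1 : S - T = b1)
    (h0 : P + Q = b0 + (a + b3) * T + a * S) (h2 : P * Q = (b2 + a * (a + b3)) * (S * T)) :
    ∃ A : Matrix (Fin 4) (Fin 4) ℝ, Realizes A M4 ∧
      A.charpoly = X ^ 4 + C b3 * X ^ 3 + C b2 * X ^ 2 + C b1 * X + C b0 := by
  refine ⟨!![a, P / S, -T, 0; -(Q / T), -(a + b3), S, 0; 0, 0, 0, -1; 1, 1, 0, 0], ?_, ?_⟩
  · intro i j
    fin_cases i <;> fin_cases j
    · exact sign_pos ha
    · exact sign_pos (div_pos hP hS)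
    · exact sign_neg (neg_neg_of_pos hT)
    · exact sign_zero
    · exact sign_neg (neg_neg_of_pos (div_pos hQ hT))
    · exact sign_neg (neg_neg_of_pos he)
    · exact sign_pos hS
    · exact sign_zero
    · exact sign_zero
    · exact sign_zero
    · exact sign_zero
    · exact sign_neg (neg_neg_of_pos one_pos)
    · exact sign_pos one_pos
    · exact sign_pos one_pos
    · exact sign_zero
    · exact sign_zero
  · rw [charpoly4]
    have hS' := hS.ne'
    have hT' := hT.ne'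
    have e3 : -(a + -(a + b3)) = b3 := by ring
    have e2 : a * -(a + b3) - P / S * -(Q / T) - 0 * 1 = b2 := by
      have : P / S * (Q / T) = b2 + a * (a + b3) := by
        field_simp
        linarith
      linarith
    have e1 : -(-T * -1 * 1 + S * -1 * 1) + 0 * (-(a + b3) * 1 - -(Q / T) * 1) = b1 := by
      linarith
    have e0 : -1 * (a * S * 1 - P / S * S * 1 + -T * (-(a + b3) * 1 - -(Q / T) * 1)) = b0 := by
      have q1 : P / S * S = P := div_mul_cancel₀ _ hS'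
      have q2 : T * (Q / T) = Q := mul_div_cancel₀ _ hT'
      linarith
    rw [e3, e2, e1, e0]

/-- Two positive numbers with given sum and product. -/
theorem exists_sum_prod (σ π : ℝ) (hσ : 0 < σ) (hπ : 0 < π) (h : 4 * π ≤ σ ^ 2) :
    ∃ P Q : ℝ, 0 < P ∧ 0 < Q ∧ P + Q = σ ∧ P * Q = π := by
  have h1 : 0 ≤ σ ^ 2 - 4 * π := by linarith
  set r := Real.sqrt (σ ^ 2 - 4 * π) with hr
  have h2 : r ^ 2 = σ ^ 2 - 4 * π := Real.sq_sqrt h1
  have h3 : 0 ≤ r := Real.sqrt_nonneg _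
  have h4 : r < σ := by nlinarith
  exact ⟨(σ + r) / 2, (σ - r) / 2, by linarith, by linarith, by ring, by nlinarith⟩

theorem realize_M4_pos (b3 b2 b1 b0 : ℝ) (h0 : 0 ≤ b0) (h : 0 < b0 + |b1|) :
    ∃ A : Matrix (Fin 4) (Fin 4) ℝ, Realizes A M4 ∧
      A.charpoly = X ^ 4 + C b3 * X ^ 3 + C b2 * X ^ 2 + C b1 * X + C b0 := by
  set a : ℝ := |b3| + |b2| + 1 with ha
  have n2 := abs_nonneg b2
  have n3 := abs_nonneg b3
  have n1 := abs_nonneg b1
  have l3 := neg_abs_le b3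
  have l2 := neg_abs_le b2
  have ha1 : 1 ≤ a := by rw [ha]; linarith
  have he : |b2| + 1 ≤ a + b3 := by rw [ha]; linarith
  have hβ : 0 < b2 + a * (a + b3) := by nlinarith
  set β : ℝ := b2 + a * (a + b3) with hβd
  set m : ℝ := b0 + |b1| with hm
  -- the small parameter
  set ε : ℝ := min 1 (m ^ 2 / (4 * β * (|b1| + 1))) with hε
  have hε0 : 0 < ε := by
    rw [hε]
    apply lt_min one_pos
    positivity
  have hε1 : ε ≤ 1 := min_le_left _ _
  have hε2 : 4 * β * (|b1| + 1) * ε ≤ m ^ 2 := by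
    have : ε ≤ m ^ 2 / (4 * β * (|b1| + 1)) := min_le_right _ _
    rw [le_div_iff₀ (by positivity)] at this
    linarith
  have hε3 : 4 * (β * ((|b1| + ε) * ε)) ≤ m ^ 2 := by
    have h5 : (|b1| + ε) * ε ≤ (|b1| + 1) * ε := by
      apply mul_le_mul_of_nonneg_right _ hε0.le
      linarith
    nlinarith
  -- choose S and T
  obtain ⟨S, T, hS, hT, hST, hprod, hsum⟩ : ∃ S T : ℝ, 0 < S ∧ 0 < T ∧ S - T = b1 ∧
      S * T = (|b1| + ε) * ε ∧ |b1| ≤ (a + b3) * T + a * S := by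
    rcases le_total 0 b1 with hb | hb
    · refine ⟨b1 + ε, ε, by linarith, hε0, by ring, by rw [abs_of_nonneg hb], ?_⟩
      rw [abs_of_nonneg hb]
      nlinarith
    · refine ⟨ε, -b1 + ε, hε0, by linarith, by ring, by rw [abs_of_nonpos hb]; ring, ?_⟩
      rw [abs_of_nonpos hb]
      nlinarith
  obtain ⟨P, Q, hP, hQ, hPQ, hPQ'⟩ := exists_sum_prod (b0 + (a + b3) * T + a * S)
    (β * (S * T)) (by linarith) (by positivity) (by
      rw [hprod]
      refine hε3.trans ?_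
      apply pow_le_pow_left₀ h.le
      linarith)
  exact realize_M4_aux b3 b2 b1 b0 a S T P Q (by linarith) (by linarith) hS hT hP hQ hST hPQ hPQ'

theorem realize_M4_zero (b3 b2 : ℝ) (h : 4 * b2 ≤ b3 ^ 2) :
    ∃ A : Matrix (Fin 4) (Fin 4) ℝ, Realizes A M4 ∧
      A.charpoly = X ^ 4 + C b3 * X ^ 3 + C b2 * X ^ 2 + C 0 * X + C 0 := by
  set a : ℝ := |b3| + |b2| + 1 with ha
  have n2 := abs_nonneg b2
  have n3 := abs_nonneg b3
  have l3 := neg_abs_le b3
  have l2 := neg_abs_le b2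
  have ha1 : 1 ≤ a := by rw [ha]; linarith
  have he : |b2| + 1 ≤ a + b3 := by rw [ha]; linarith
  have hβ : 0 < b2 + a * (a + b3) := by nlinarith
  obtain ⟨P, Q, hP, hQ, hPQ, hPQ'⟩ := exists_sum_prod (0 + (a + b3) * 1 + a * 1)
    ((b2 + a * (a + b3)) * (1 * 1)) (by linarith) (by linarith) (by nlinarith)
  exact realize_M4_aux b3 b2 0 0 a 1 1 P Q (by linarith) (by linarith) one_pos one_pos hP hQ
    (by ring) hPQ hPQ'

/-- the product of two quadratics -/
theorem quad_mul (s1 t1 s2 t2 : ℝ) :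
    ((X ^ 2 + C s1 * X + C t1) * (X ^ 2 + C s2 * X + C t2) : ℝ[X]) =
      X ^ 4 + C (s1 + s2) * X ^ 3 + C (t1 + t2 + s1 * s2) * X ^ 2 + C (s1 * t2 + s2 * t1) * X +
        C (t1 * t2) := by
  simp only [C_add, C_mul]
  ring

/-- A product of two quadratics is realized by `M₄` when the product of the constant terms is
positive, or when one constant term vanishes and the other is nonpositive. -/
theorem realize_M4_quad (s1 t1 s2 t2 : ℝ) (h : 0 < t1 * t2 ∨ (t1 = 0 ∧ t2 ≤ 0)) :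
    ∃ A : Matrix (Fin 4) (Fin 4) ℝ, Realizes A M4 ∧
      A.charpoly = (X ^ 2 + C s1 * X + C t1) * (X ^ 2 + C s2 * X + C t2) := by
  rw [quad_mul]
  rcases h with h | ⟨h, h'⟩
  · exact realize_M4_pos _ _ _ _ h.le (by positivity)
  · subst h
    rw [zero_mul]
    by_cases hb : s1 * t2 + s2 * 0 = 0
    · rw [hb]
      apply realize_M4_zero
      nlinarith [sq_nonneg (s1 - s2)]
    · exact realize_M4_pos _ _ _ _ le_rfl (by rw [zero_add]; exact abs_pos.2 hb)

/-- Direct sums. -/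
theorem realize_sum {A : Matrix (Fin 4) (Fin 4) ℝ} {B : Matrix (Fin 2) (Fin 2) ℝ}
    (hA : Realizes A M4) (hB : Realizes B T2) :
    ∃ M : Matrix (Fin 6) (Fin 6) ℝ, Realizes M S ∧ M.charpoly = A.charpoly * B.charpoly := by
  let e : Fin 4 ⊕ Fin 2 ≃ Fin 6 := finSumFinEquiv
  refine ⟨Matrix.reindex e e (Matrix.fromBlocks A 0 0 B), ?_, ?_⟩
  · intro i j
    obtain ⟨i, rfl⟩ := e.surjective i
    obtain ⟨j, rfl⟩ := e.surjective j
    rw [Matrix.reindex_apply, Matrix.submatrix_apply, Equiv.symm_apply_apply,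
      Equiv.symm_apply_apply]
    rcases i with i | i <;> rcases j with j | j
    · rw [Matrix.fromBlocks_apply₁₁, hA i j]
      fin_cases i <;> fin_cases j <;> rfl
    · rw [Matrix.fromBlocks_apply₁₂, Matrix.zero_apply, sign_zero]
      fin_cases i <;> fin_cases j <;> rfl
    · rw [Matrix.fromBlocks_apply₂₁, Matrix.zero_apply, sign_zero]
      fin_cases i <;> fin_cases j <;> rfl
    · rw [Matrix.fromBlocks_apply₂₂, hB i j]
      fin_cases i <;> fin_cases j <;> rfl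
  · rw [Matrix.charpoly_reindex, Matrix.charpoly_fromBlocks_zero₁₂]

theorem monic_two {q : ℝ[X]} (hq : IsMonicOfDegree q 2) :
    ∃ s t : ℝ, q = X ^ 2 + C s * X + C t := by
  refine ⟨q.coeff 1, q.coeff 0, ?_⟩
  have h2 : q.coeff 2 = 1 := by
    have := hq.monic.coeff_natDegree
    rwa [hq.natDegree_eq] at this
  conv_lhs => rw [Polynomial.as_sum_range_C_mul_X_pow q, hq.natDegree_eq]
  simp only [Finset.sum_range_succ, Finset.sum_range_zero, h2]
  simp
  ring

theorem S_arbitrary : SpectrallyArbitrary S := by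
  intro p hp hd
  have hp6 : IsMonicOfDegree p (4 + 2) := ⟨hd, hp⟩
  obtain ⟨q1, r, h1, hr, rfl⟩ := hp6.eq_isMonicOfDegree_two_mul_isMonicOfDegree
  obtain ⟨q2, q3, h2, h3, rfl⟩ :=
    (show IsMonicOfDegree r (2 + 2) from hr).eq_isMonicOfDegree_two_mul_isMonicOfDegree
  obtain ⟨s1, t1, rfl⟩ := monic_two h1
  obtain ⟨s2, t2, rfl⟩ := monic_two h2
  obtain ⟨s3, t3, rfl⟩ := monic_two h3
  clear h1 h2 h3 hr hp6 hp hd
  -- a good pair suffices
  have key : ∀ s1 t1 s2 t2 s3 t3 : ℝ, (0 < t1 * t2 ∨ (t1 = 0 ∧ t2 ≤ 0)) →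
      ∃ A : Matrix (Fin 6) (Fin 6) ℝ, Realizes A S ∧ A.charpoly =
        (X ^ 2 + C s1 * X + C t1) * (X ^ 2 + C s2 * X + C t2) * (X ^ 2 + C s3 * X + C t3) := by
    intro s1 t1 s2 t2 s3 t3 h
    obtain ⟨A, hA, hA'⟩ := realize_M4_quad s1 t1 s2 t2 h
    obtain ⟨B, hB, hB'⟩ := realize_T2 s3 t3
    obtain ⟨M, hM, hM'⟩ := realize_sum hA hB
    exact ⟨M, hM, by rw [hM', hA', hB']⟩
  by_cases c12 : 0 < t1 * t2 ∨ (t1 = 0 ∧ t2 ≤ 0)
  · obtain ⟨A, hA, hA'⟩ := key s1 t1 s2 t2 s3 t3 c12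
    exact ⟨A, hA, by rw [hA']; ring⟩
  by_cases c21 : 0 < t2 * t1 ∨ (t2 = 0 ∧ t1 ≤ 0)
  · obtain ⟨A, hA, hA'⟩ := key s2 t2 s1 t1 s3 t3 c21
    exact ⟨A, hA, by rw [hA']; ring⟩
  by_cases c13 : 0 < t1 * t3 ∨ (t1 = 0 ∧ t3 ≤ 0)
  · obtain ⟨A, hA, hA'⟩ := key s1 t1 s3 t3 s2 t2 c13
    exact ⟨A, hA, by rw [hA']; ring⟩
  by_cases c31 : 0 < t3 * t1 ∨ (t3 = 0 ∧ t1 ≤ 0)
  · obtain ⟨A, hA, hA'⟩ := key s3 t3 s1 t1 s2 t2 c31
    exact ⟨A, hA, by rw [hA']; ring⟩
  by_cases c23 : 0 < t2 * t3 ∨ (t2 = 0 ∧ t3 ≤ 0)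
  · obtain ⟨A, hA, hA'⟩ := key s2 t2 s3 t3 s1 t1 c23
    exact ⟨A, hA, by rw [hA']; ring⟩
  by_cases c32 : 0 < t3 * t2 ∨ (t3 = 0 ∧ t2 ≤ 0)
  · obtain ⟨A, hA, hA'⟩ := key s3 t3 s2 t2 s1 t1 c32
    exact ⟨A, hA, by rw [hA']; ring⟩
  exfalso
  push Not at c12 c21 c13 c31 c23 c32
  rcases lt_trichotomy t1 0 with a1 | a1 | a1 <;> rcases lt_trichotomy t2 0 with a2 | a2 | a2 <;>
    rcases lt_trichotomy t3 0 with a3 | a3 | a3 <;> first
    | nlinarith [c12.1, mul_pos_of_neg_of_neg a1 a2]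
    | nlinarith [c13.1, mul_pos_of_neg_of_neg a1 a3]
    | nlinarith [c23.1, mul_pos_of_neg_of_neg a2 a3]
    | nlinarith [c12.1, mul_pos a1 a2]
    | nlinarith [c13.1, mul_pos a1 a3]
    | nlinarith [c23.1, mul_pos a2 a3]
    | linarith [c12.2 a1]
    | linarith [c13.2 a1]
    | linarith [c21.2 a2]
    | linarith [c23.2 a2]
    | linarith [c31.2 a3]
    | linarith [c32.2 a3]

/-- the algebraic heart: `M₄` with a positive entry `p` in position `(1, 4)` is not potentially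
nilpotent -/
theorem no_nilpotent (a b c p d e f g h k : ℝ) (ha : 0 < a) (hb : 0 < b) (hc : c < 0)
    (hp : 0 < p) (hd : d < 0) (he : e < 0) (hf : 0 < f) (hg : g < 0) (hh : 0 < h) (hk : 0 < k)
    (h3 : -(a + e) = 0) (h2 : a * e - b * d - p * h = 0)
    (h1 : -(c * g * h + f * g * k) + p * (e * h - d * k) = 0)
    (h0 : g * (a * f * k - b * f * h + c * (e * h - d * k)) = 0) : False := by
  have he' : e = -a := by linarith
  subst he'
  have h0' : a * f * k - b * f * h + c * (-a * h - d * k) = 0 := by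
    rcases mul_eq_zero.1 h0 with h | h
    · exact absurd h hg.ne
    · exact h
  -- `X = a h + d k`, `Y = b h - a k`; `f Y = (-c) X`, `(-d) Y = a X + p h ^ 2`
  set x : ℝ := a * h + d * k with hx
  set y : ℝ := b * h - a * k with hy
  have e1 : f * y = -c * x := by rw [hx, hy]; linear_combination -h0'
  have e2 : b * (-d) = a * a + p * h := by linear_combination h2
  have e3 : -g * (f * k + c * h) = p * x := by rw [hx]; linear_combination h1
  -- the quadratic form is positive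
  have e4 : 0 < h * y - k * x := by
    have : b * (h * y - k * x) = (b * h - a * k) ^ 2 + p * h * k ^ 2 := by
      rw [hx, hy]; linear_combination k ^ 2 * e2
    have hpos : 0 < b * (h * y - k * x) := by rw [this]; positivity
    exact (pos_iff_pos_of_mul_pos hpos).1 hb
  -- multiply `e3` by `y`
  have e5 : -g * c * (h * y - k * x) = p * x * y := by
    linear_combination y * e3 + g * k * e1
  have e6 : -g * c * (h * y - k * x) < 0 := by
    have : 0 < g * c := mul_pos_of_neg_of_neg hg hc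
    nlinarith
  have e7 : 0 ≤ x * y := by
    have : f * (x * y) = -c * x ^ 2 := by linear_combination x * e1
    have h7 : 0 ≤ f * (x * y) := by rw [this]; nlinarith [sq_nonneg x]
    exact nonneg_of_mul_nonneg_right h7 hf
  nlinarith

theorem coeffs_zero (u3 u2 u1 u0 : ℝ)
    (h : (X ^ 4 + C u3 * X ^ 3 + C u2 * X ^ 2 + C u1 * X + C u0 : ℝ[X]) = X ^ 4) :
    u3 = 0 ∧ u2 = 0 ∧ u1 = 0 ∧ u0 = 0 := by
  have c3 := congrArg (fun q => coeff q 3) h
  have c2 := congrArg (fun q => coeff q 2) h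
  have c1 := congrArg (fun q => coeff q 1) h
  have c0 := congrArg (fun q => coeff q 0) h
  simp [coeff_X, coeff_C] at c3 c2 c1 c0
  exact ⟨c3, c2, c1, c0⟩

theorem S'_not_arbitrary : ¬ SpectrallyArbitrary S' := by
  intro h
  obtain ⟨A, hA, hc⟩ := h (X ^ 6) (monic_X_pow 6) (natDegree_X_pow 6)
  let e : Fin 4 ⊕ Fin 2 ≃ Fin 6 := finSumFinEquiv
  have z : ∀ i j, S' i j = 0 → A i j = 0 := fun i j h => sign_eq_zero_iff.1 ((hA i j).trans h)
  -- block decomposition
  set B : Matrix (Fin 4) (Fin 4) ℝ :=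
    !![A 0 0, A 0 1, A 0 2, A 0 3; A 1 0, A 1 1, A 1 2, 0; 0, 0, 0, A 2 3; A 3 0, A 3 1, 0, 0]
    with hB
  set D : Matrix (Fin 2) (Fin 2) ℝ := !![A 4 4, A 4 5; A 5 4, A 5 5] with hD
  have hblock : A = Matrix.reindex e e (Matrix.fromBlocks B 0 0 D) := by
    ext i j
    fin_cases i <;> fin_cases j <;> first
      | rfl
      | exact z _ _ rfl
  rw [hblock, Matrix.charpoly_reindex, Matrix.charpoly_fromBlocks_zero₁₂] at hc
  have hB4 : B.charpoly = X ^ 4 := by
    have hdvd : B.charpoly ∣ X ^ 6 := ⟨_, hc.symm⟩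
    obtain ⟨i, _, hi⟩ := (dvd_prime_pow prime_X 6).1 hdvd
    have hi' := eq_of_monic_of_associated B.charpoly_monic (monic_X_pow i) hi
    have hdeg : B.charpoly.natDegree = 4 := by
      rw [Matrix.charpoly_natDegree_eq_dim, Fintype.card_fin]
    rw [hi', natDegree_X_pow] at hdeg
    rw [hi', hdeg]
  rw [hB, charpoly4] at hB4
  obtain ⟨c3, c2, c1, c0⟩ := coeffs_zero _ _ _ _ hB4
  exact no_nilpotent (A 0 0) (A 0 1) (A 0 2) (A 0 3) (A 1 0) (A 1 1) (A 1 2) (A 2 3) (A 3 0)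
    (A 3 1) (sign_eq_one_iff.1 (hA 0 0)) (sign_eq_one_iff.1 (hA 0 1))
    (sign_eq_neg_one_iff.1 (hA 0 2)) (sign_eq_one_iff.1 (hA 0 3))
    (sign_eq_neg_one_iff.1 (hA 1 0)) (sign_eq_neg_one_iff.1 (hA 1 1))
    (sign_eq_one_iff.1 (hA 1 2)) (sign_eq_neg_one_iff.1 (hA 2 3))
    (sign_eq_one_iff.1 (hA 3 0)) (sign_eq_one_iff.1 (hA 3 1)) c3 c2 c1 c0

theorem agree : ∀ i j, S i j = 0 ∨ S' i j = S i j := by
  intro i j
  fin_cases i <;> fin_cases j <;> first
    | exact Or.inr rfl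
    | exact Or.inl rfl

theorem isSuperpattern : IsSuperpattern S' S := fun i j h => (agree i j).resolve_left h

/-- There is a spectrally arbitrary sign pattern with a superpattern that is not spectrally
arbitrary. -/
theorem result : ∃ (n : ℕ) (P Q : Matrix (Fin n) (Fin n) SignType),
    SpectrallyArbitrary P ∧ IsSuperpattern Q P ∧ ¬ SpectrallyArbitrary Q := by
  exact ⟨6, S, S', S_arbitrary, isSuperpattern, S'_not_arbitrary⟩

end Pool.Agent.Results.MP_557f7f_co.SpectralSuperpattern
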